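import Pool.Agent.helper4.QX.SpecM

set_option autoImplicit false

/-! # QX row MRD: coefficients and supports of powers -/

open scoped MatrixGroups ContDiff Topology UpperHalfPlane
open UpperHalfPlane MeasureTheory ProbabilityTheory Filter Set Polynomial
open Pool.Agent.QU Pool.Agent.RP

namespace Pool.Agent.QX

section

variable {G : Type} [Group G]

lemma MRD_l2_sq (u : MonoidAlgebra ℂ G) : l2 u ^ 2 = ∑ γ ∈ u.coeff.support, ‖u.coeff γ‖ ^ 2 := by
  unfold l2
  exact Real.sq_sqrt (Finset.sum_nonneg fun _ _ => sq_nonneg _)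

lemma MRD_l2_one : l2 (1 : MonoidAlgebra ℂ G) ^ 2 = 1 := by
  rw [MRD_l2_sq, MonoidAlgebra.one_def, MonoidAlgebra.coeff_single,
    Finsupp.support_single_ne_zero _ one_ne_zero, Finset.sum_singleton, Finsupp.single_eq_same]
  simp

lemma MRD_l2_zero : l2 (0 : MonoidAlgebra ℂ G) ^ 2 = 0 := by
  rw [MRD_l2_sq, MonoidAlgebra.coeff_zero]
  simp

lemma MRD_coeff (u : MonoidAlgebra ℂ G) (w : G) : ‖u.coeff w‖ ^ 2 ≤ l2 u ^ 2 := by
  rw [MRD_l2_sq]
  by_cases h : w ∈ u.coeff.support
  · exact Finset.single_le_sum (f := fun γ => ‖u.coeff γ‖ ^ 2) (fun _ _ => sq_nonneg _) h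
  · rw [Finsupp.notMem_support_iff.1 h, norm_zero, zero_pow two_ne_zero]
    exact Finset.sum_nonneg fun _ _ => sq_nonneg _

lemma MRD_pow {D : ℕ} {P : Mat D G} {r : ℝ} (hP : RegB P r) (p : ℕ) : RegB (P ^ p) (r ^ p) := by
  induction p with
  | zero =>
    intro u
    rw [pow_zero, pow_zero, one_pow, one_mul]
    have h : ∀ i, ∑ j, (1 : Mat D G) i j * u j = u i := fun i =>
      congrFun (Matrix.one_mulVec u) i
    simp only [h]
    exact le_refl _
  | succ p ih =>
    intro u
    have h : ∀ i, ∑ j, (P ^ (p + 1)) i j * u j = ∑ k, P i k * ∑ j, (P ^ p) k j * u j := by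
      intro i
      have h1 : Matrix.mulVec (P ^ (p + 1)) u = Matrix.mulVec P (Matrix.mulVec (P ^ p) u) := by
        rw [Matrix.mulVec_mulVec, pow_succ']
      exact congrFun h1 i
    simp only [h]
    calc ∑ i, l2 (∑ k, P i k * ∑ j, (P ^ p) k j * u j) ^ 2
        ≤ r ^ 2 * ∑ k, l2 (∑ j, (P ^ p) k j * u j) ^ 2 := hP _
      _ ≤ r ^ 2 * ((r ^ p) ^ 2 * ∑ i, l2 (u i) ^ 2) := mul_le_mul_of_nonneg_left (ih u) (sq_nonneg r)
      _ = (r ^ (p + 1)) ^ 2 * ∑ i, l2 (u i) ^ 2 := by ring

end

theorem MRD : MRD_stmt := by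
  classical
  intro D q P r hr hP
  refine ⟨?_, ?_⟩
  · intro p i k w
    have h1 := MRD_pow hP p (Pi.single k 1)
    have h2 : ∀ i, ∑ j, (P ^ p) i j * (Pi.single k (1 : MonoidAlgebra ℂ F2) : Fin D → _) j = (P ^ p) i k := by
      intro i
      rw [Finset.sum_eq_single k]
      · rw [Pi.single_eq_same, mul_one]
      · intro j _ hj
        rw [Pi.single_eq_of_ne hj, mul_zero]
      · intro h
        exact absurd (Finset.mem_univ k) h
    have h3 : ∑ i, l2 ((Pi.single k (1 : MonoidAlgebra ℂ F2) : Fin D → MonoidAlgebra ℂ F2) i) ^ 2 = 1 := by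
      rw [Finset.sum_eq_single k]
      · rw [Pi.single_eq_same, MRD_l2_one]
      · intro j _ hj
        rw [Pi.single_eq_of_ne hj, MRD_l2_zero]
      · intro h
        exact absurd (Finset.mem_univ k) h
    simp only [h2] at h1
    rw [h3, mul_one] at h1
    have h4 : ‖((P ^ p) i k).coeff w‖ ^ 2 ≤ (r ^ p) ^ 2 :=
      (MRD_coeff _ w).trans ((Finset.single_le_sum (f := fun i => l2 ((P ^ p) i k) ^ 2)
        (fun _ _ => sq_nonneg _) (Finset.mem_univ i)).trans h1)
    exact (sq_le_sq₀ (norm_nonneg _) (pow_nonneg hr p)).1 h4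
  · intro hS p
    induction p with
    | zero =>
      intro i j γ hγ
      rw [pow_zero, Matrix.one_apply] at hγ
      show γ.norm ≤ q * 0
      split_ifs at hγ with hij
      · rw [MonoidAlgebra.one_def, MonoidAlgebra.coeff_single,
          Finsupp.support_single_ne_zero _ one_ne_zero, Finset.mem_singleton] at hγ
        rw [hγ, FreeGroup.norm_one]
        exact Nat.zero_le _
      · rw [MonoidAlgebra.coeff_zero] at hγ
        simp at hγ
    | succ p ih =>
      intro i j γ hγ
      show γ.norm ≤ q * (p + 1)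
      rw [pow_succ, Matrix.mul_apply] at hγ
      have hne : (∑ k, (P ^ p) i k * P k j).coeff γ ≠ 0 := Finsupp.mem_support_iff.1 hγ
      have hex : ∃ k, ((P ^ p) i k * P k j).coeff γ ≠ 0 := by
        by_contra hcon
        push Not at hcon
        apply hne
        have h1 : (∑ k, (P ^ p) i k * P k j).coeff = ∑ k, ((P ^ p) i k * P k j).coeff := by
          exact map_sum (MonoidAlgebra.coeffAddEquiv) _ _
        rw [h1, Finsupp.finset_sum_apply]
        exact Finset.sum_eq_zero fun k _ => hcon k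
      obtain ⟨k, hk⟩ := hex
      have h2 := MonoidAlgebra.support_coeff_mul_subset ((P ^ p) i k) (P k j)
        (Finsupp.mem_support_iff.2 hk)
      obtain ⟨a, ha, b, hb, rfl⟩ := Finset.mem_mul.1 h2
      have h3 : a.norm ≤ q * p := ih i k a ha
      have h4 : b.norm ≤ q := hS k j b hb
      calc (a * b).norm ≤ a.norm + b.norm := FreeGroup.norm_mul_le a b
        _ ≤ q * p + q := add_le_add h3 h4
        _ = q * (p + 1) := by ring

end Pool.Agent.QX
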